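import Pool.Agent.H8.CF.Form

/-!
# Nondegenerate bilinear forms
-/

set_option autoImplicit false

open Set Filter Topology Metric Function
open scoped Manifold ContDiff

noncomputable section

namespace Pool.Agent.H8.CF

open Pool.Agent.Y522 (LD)
open Pool.Agent.H865_small (E Imm imm_smooth)
open Pool.Agent.H865_cl (CCT)

/-- Let `B (z, ·)` have norm at least `‖z‖` for all `z`; then every `⟪v, ·⟫` with `‖v‖ = 1` is of the form `B (·, a)`
with `‖a‖ ≤ 1`. -/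
theorem solve_form {V : Type*} [NormedAddCommGroup V] [InnerProductSpace ℝ V] [FiniteDimensional ℝ V]
    (B : V →L[ℝ] V →L[ℝ] ℝ) (hB : ∀ z : V, ∃ a : V, ‖a‖ ≤ 1 ∧ ‖z‖ ≤ B z a) (v : V) (hv : ‖v‖ = 1) :
    ∃ a : V, ‖a‖ ≤ 1 ∧ ∀ z : V, B z a = inner ℝ v z := by
  -- `H z` is the vector with `⟪H z, a⟫ = B z a`
  obtain ⟨H, hH⟩ : ∃ H : V →ₗ[ℝ] V, ∀ z a, inner ℝ (H z) a = B z a := by
    refine ⟨((InnerProductSpace.toDual ℝ V).symm.toLinearEquiv.toLinearMap.comp B.toLinearMap), fun z a => ?_⟩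
    exact InnerProductSpace.toDual_symm_apply
  have hH1 : ∀ z, ‖z‖ ≤ ‖H z‖ := by
    intro z
    obtain ⟨a, ha, h1⟩ := hB z
    rw [← hH] at h1
    have h2 := real_inner_le_norm (H z) a
    nlinarith [norm_nonneg (H z)]
  have hinj : Injective H := by
    rw [← LinearMap.ker_eq_bot, LinearMap.ker_eq_bot']
    intro z hz
    have := hH1 z
    rw [hz, norm_zero] at this
    exact norm_le_zero_iff.1 this
  have hsurj : Surjective H := LinearMap.surjective_of_injective hinj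
  -- the adjoint
  obtain ⟨G, hG⟩ : ∃ G : V →ₗ[ℝ] V, ∀ z a, inner ℝ z (G a) = inner ℝ (H z) a := by
    refine ⟨LinearMap.adjoint H, fun z a => ?_⟩
    exact LinearMap.adjoint_inner_right H z a
  have hGinj : Injective G := by
    rw [← LinearMap.ker_eq_bot, LinearMap.ker_eq_bot']
    intro a ha
    obtain ⟨z, hz⟩ := hsurj a
    have h1 := hG z a
    rw [ha, inner_zero_right, hz] at h1
    exact inner_self_eq_zero.1 h1.symm
  obtain ⟨a, ha⟩ := LinearMap.surjective_of_injective hGinj v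
  obtain ⟨z, hz⟩ := hsurj a
  refine ⟨a, ?_, fun z => ?_⟩
  · have h1 := hG z a
    rw [ha, hz, real_inner_self_eq_norm_mul_norm] at h1
    have h2 := real_inner_le_norm z v
    rw [hv, mul_one] at h2
    have h3 := hH1 z
    rw [hz] at h3
    have h4 : ‖a‖ * ‖a‖ ≤ ‖a‖ := by linarith
    rcases (norm_nonneg a).eq_or_lt with h5 | h5
    · rw [← h5]; exact zero_le_one
    · nlinarith
  · rw [← hH, ← hG, ha, real_inner_comm]

variable {n m k : ℕ} {X : Type} [TopologicalSpace X] [ChartedSpace (E n) X]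

/-- the tangent space -/
def Tan (e : X → E m) (x : X) : Set (E m) :=
  {p | ∃ (A : E n → X) (v : E n), A 0 = x ∧ LD n A 0 ∧ fderiv ℝ (fun z => e (A z)) 0 v = p}

/-- two parametrizations have the same tangent space -/
theorem tan_eq {e : X → E m} {A : E n → X} (hA : LD n A 0)
    (hs : ∀ᶠ z in 𝓝 (0 : E n), ContDiffAt ℝ ∞ (fun z => e (A z)) z) :
    Tan (n := n) e (A 0) = range (fderiv ℝ (fun z => e (A z)) 0) := by
  apply Subset.antisymm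
  · rintro p ⟨A', v, hA'0, hA', rfl⟩
    obtain ⟨p, hp, hp0, -, hp2⟩ := hA.exists_inverse
    have hθ : LD n (fun y => p (A' y)) 0 := Pool.Agent.Y522.LD.comp_fun (by rw [hA'0]; exact hp) hA'
    have hev : (fun y => e (A' y)) =ᶠ[𝓝 0] fun y => (fun w => e (A w)) (p (A' y)) := by
      have h1 : ∀ᶠ y in 𝓝 (A' 0), A (p y) = y := by rw [hA'0]; exact hp2
      filter_upwards [hA'.continuousAt.eventually h1] with y hy
      simp only [hy]
    have hθ0 : p (A' 0) = 0 := by rw [hA'0, hp0]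
    have hθd : DifferentiableAt ℝ (fun y => p (A' y)) 0 := hθ.contDiffAt.differentiableAt (by simp)
    have h2 : HasFDerivAt (fun w => e (A w)) (fderiv ℝ (fun z => e (A z)) 0) (p (A' 0)) := by
      rw [hθ0]
      exact (hs.self_of_nhds.differentiableAt (by simp)).hasFDerivAt
    have h3 := h2.comp (0 : E n) hθd.hasFDerivAt
    have h4 : fderiv ℝ (fun z => e (A' z)) 0 = (fderiv ℝ (fun z => e (A z)) 0).comp (fderiv ℝ (fun y => p (A' y)) 0) := by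
      rw [hev.fderiv_eq]
      exact h3.fderiv
    rw [h4]
    exact mem_range_self _
  · rintro _ ⟨v, rfl⟩
    exact ⟨A, v, rfl, hA, rfl⟩

/-- the norm of `B (z, ·)` on the tangent space is at least `l ‖z‖` -/
def Nondeg (e : X → E m) (B : E m →L[ℝ] E m →L[ℝ] ℝ) (l : ℝ) (x : X) : Prop :=
  ∀ p ∈ Tan (n := n) e x, ∃ a ∈ Tan (n := n) e x, ‖a‖ ≤ 1 ∧ l * ‖p‖ ≤ B p a

/-- coarse preservation of a bilinear form -/
def Pres (e : X → E m) (B : X → E m →L[ℝ] E m →L[ℝ] ℝ) (F : X → E k) (S : Set ℝ) (δ : ℝ) (x : X) : Prop :=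
  ∃ U ∈ 𝓝 x, ∃ r : ℝ, 0 < r ∧ ∃ C : ℝ, ∀ y ∈ U, ∀ s ∈ S, 0 < s → s < r → ∃ β : E k →L[ℝ] E k →L[ℝ] ℝ,
    ∀ u ∈ U, ∀ w ∈ U, ‖e u - e y‖ ≤ s → ‖e w - e y‖ ≤ s →
      |β (F u - F y) (F w - F y) - B y (e u - e y) (e w - e y)| ≤ δ * s ^ 2 ∧
        ‖β‖ * (‖F u - F y‖ * ‖F w - F y‖) ≤ C * s ^ 2

/-- a bilinear form as a multilinear map -/
theorem exists_multi {V : Type*} [NormedAddCommGroup V] [NormedSpace ℝ V] (b : V →L[ℝ] V →L[ℝ] ℝ) :
    ∃ β : ContinuousMultilinearMap ℝ (fun _ : Fin (1 + 1) => V) ℝ, (∀ u, β u = b (u 0) (u 1)) ∧ ‖β‖ ≤ ‖b‖ := by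
  obtain ⟨β, hβ⟩ : ∃ β : ContinuousMultilinearMap ℝ (fun _ : Fin (1 + 1) => V) ℝ, ∀ u, β u = b (u 0) (u 1) :=
    ⟨((continuousMultilinearCurryFin1 ℝ V ℝ).symm.toContinuousLinearEquiv.toContinuousLinearMap.comp b).uncurryLeft,
      fun u => rfl⟩
  refine ⟨β, hβ, ContinuousMultilinearMap.opNorm_le_bound (M := ‖b‖) (norm_nonneg b) fun u => ?_⟩
  rw [hβ, Fin.prod_univ_two]
  exact (b.le_opNorm₂ _ _).trans (le_of_eq (by ring))

theorem cct_of_bilin {e : X → E m} {F : X → E k} {S : Set ℝ} {x : X} (hI : Imm (n := n) e x)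
    {B : X → E m →L[ℝ] E m →L[ℝ] ℝ} (hBc : ContinuousAt B x) {l δ η : ℝ} (hl : 0 < l)
    (hB : Nondeg (n := n) e (B x) l x) (hδ : 0 ≤ δ) (hδη : δ < η * l) (h : Pres e B F S δ x) : CCT e F S η x := by
  obtain ⟨A, hA0, hA, hs, hi⟩ := hI
  subst hA0
  obtain ⟨L, hL⟩ : ∃ L, L = fderiv ℝ (fun z => e (A z)) 0 := ⟨_, rfl⟩
  obtain ⟨T, hT⟩ : ∃ T, T = LinearMap.range (L : E n →ₗ[ℝ] E m) := ⟨_, rfl⟩
  have hTan : ∀ p, p ∈ Tan (n := n) e (A 0) ↔ p ∈ T := by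
    intro p
    rw [tan_eq hA hs, ← hL, hT]
    rfl
  have hmemT : ∀ p, p ∈ T → ∃ a, L a = p := fun p hp => by
    rw [hT] at hp
    exact hp
  obtain ⟨B₀, hB₀, hB₀n⟩ := exists_multi (l⁻¹ • B (A 0))
  obtain ⟨BT, hBT⟩ : ∃ BT : T →L[ℝ] T →L[ℝ] ℝ, ∀ z a : T, BT z a = l⁻¹ * B (A 0) z a := by
    refine ⟨(l⁻¹ • B (A 0)).bilinearComp T.subtypeL T.subtypeL, fun z a => rfl⟩
  have hsolve := solve_form BT (fun z => by
    obtain ⟨a, ha, ha1, ha2⟩ := hB z ((hTan _).2 z.2)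
    refine ⟨⟨a, (hTan _).1 ha⟩, ha1, ?_⟩
    rw [hBT]
    have h1 : ‖(z : E m)‖ ≤ l⁻¹ * B (A 0) z a := by
      rw [inv_mul_eq_div, le_div_iff₀ hl, mul_comm]
      exact ha2
    exact h1)
  refine cct_of_form (q := 1) (δ := δ / l) hA hs hi B₀ ?_ (by positivity) (by rw [div_lt_iff₀ hl]; exact hδη) ?_
  · intro v hv
    rw [← hL] at hv ⊢
    obtain ⟨a, ha, hav⟩ := hsolve ⟨L v, by rw [hT]; exact ⟨v, rfl⟩⟩ hv
    obtain ⟨a₀, ha₀⟩ : ∃ a₀, L a₀ = a := hmemT a a.2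
    refine ⟨fun _ => a₀, fun _ => by rw [ha₀]; exact ha, fun z => ?_⟩
    have h1 := hav ⟨L z, by rw [hT]; exact ⟨z, rfl⟩⟩
    rw [hBT] at h1
    rw [hB₀]
    simp only [ha₀]
    exact h1
  · intro τ hτ
    obtain ⟨U, hU, r, hr, C, hP⟩ := h
    have hcont : ∀ᶠ y in 𝓝 (A 0), ‖B y - B (A 0)‖ < τ * l := by
      have h2 := hBc.eventually (Metric.ball_mem_nhds (B (A 0)) (show 0 < τ * l by positivity))
      filter_upwards [h2] with y hy
      have h3 : dist (B y) (B (A 0)) = ‖B y - B (A 0)‖ := dist_eq_norm (B y) (B (A 0))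
      rw [← h3]
      exact hy
    refine ⟨U ∩ {y | ‖B y - B (A 0)‖ < τ * l}, inter_mem hU hcont, r, hr, l⁻¹ * C, ?_⟩
    rintro y ⟨hy, hy2⟩ s hsS hs0 hsr
    obtain ⟨b, hb⟩ := hP y hy s hsS hs0 hsr
    obtain ⟨β, hβ, hβn⟩ := exists_multi (l⁻¹ • b)
    refine ⟨β, fun u hu hus => ?_⟩
    obtain ⟨h1, h2⟩ := hb (u 0) (hu 0).1 (u 1) (hu 1).1 (hus 0) (hus 1)
    rw [hβ, hB₀]
    have e1 : (l⁻¹ • b) (F (u 0) - F y) (F (u 1) - F y) - (l⁻¹ • B (A 0)) (e (u 0) - e y) (e (u 1) - e y) =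
        l⁻¹ * ((b (F (u 0) - F y) (F (u 1) - F y) - B y (e (u 0) - e y) (e (u 1) - e y)) +
          (B y - B (A 0)) (e (u 0) - e y) (e (u 1) - e y)) := by
      show l⁻¹ * b (F (u 0) - F y) (F (u 1) - F y) - l⁻¹ * B (A 0) (e (u 0) - e y) (e (u 1) - e y) =
        l⁻¹ * ((b (F (u 0) - F y) (F (u 1) - F y) - B y (e (u 0) - e y) (e (u 1) - e y)) +
          (B y (e (u 0) - e y) (e (u 1) - e y) - B (A 0) (e (u 0) - e y) (e (u 1) - e y)))
      ring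
    rw [e1]
    have h3 : |(B y - B (A 0)) (e (u 0) - e y) (e (u 1) - e y)| ≤ τ * l * s ^ 2 := by
      have g1 := (B y - B (A 0)).le_opNorm₂ (e (u 0) - e y) (e (u 1) - e y)
      rw [Real.norm_eq_abs] at g1
      refine g1.trans ?_
      have g2 : ‖B y - B (A 0)‖ ≤ τ * l := le_of_lt hy2
      calc ‖B y - B (A 0)‖ * ‖e (u 0) - e y‖ * ‖e (u 1) - e y‖ ≤ τ * l * s * s := by
            refine mul_le_mul (mul_le_mul g2 (hus 0) (norm_nonneg _) (by positivity)) (hus 1) (norm_nonneg _)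
              (by positivity)
        _ = τ * l * s ^ 2 := by ring
    constructor
    · rw [abs_mul, abs_of_pos (inv_pos.2 hl)]
      calc l⁻¹ * |b (F (u 0) - F y) (F (u 1) - F y) - B y (e (u 0) - e y) (e (u 1) - e y) +
            (B y - B (A 0)) (e (u 0) - e y) (e (u 1) - e y)| ≤ l⁻¹ * (δ * s ^ 2 + τ * l * s ^ 2) :=
            mul_le_mul_of_nonneg_left ((abs_add_le _ _).trans (add_le_add h1 h3)) (inv_pos.2 hl).le
        _ = (δ / l + τ) * s ^ (1 + 1) := by field_simp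
    · rw [Fin.prod_univ_two]
      have h4 : ‖l⁻¹ • b‖ ≤ l⁻¹ * ‖b‖ := by
        have h5 : ‖l⁻¹ • b‖ ≤ ‖l⁻¹‖ * ‖b‖ := ContinuousLinearMap.opNorm_smul_le l⁻¹ b
        rw [Real.norm_eq_abs, abs_of_pos (inv_pos.2 hl)] at h5
        exact h5
      calc ‖β‖ * (‖F (u 0) - F y‖ * ‖F (u 1) - F y‖) ≤ l⁻¹ * ‖b‖ * (‖F (u 0) - F y‖ * ‖F (u 1) - F y‖) :=
            mul_le_mul_of_nonneg_right (hβn.trans h4) (by positivity)
        _ = l⁻¹ * (‖b‖ * (‖F (u 0) - F y‖ * ‖F (u 1) - F y‖)) := by ring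
        _ ≤ l⁻¹ * (C * s ^ 2) := mul_le_mul_of_nonneg_left h2 (inv_pos.2 hl).le
        _ = l⁻¹ * C * s ^ (1 + 1) := by ring

end Pool.Agent.H8.CF
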