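import Pool.Graph.R_pool_sql_team_seeded_620a6dc7.H865_cl.Closed

/-!
# Maps which coarsely preserve a multilinear form have coarse coordinates
-/

set_option autoImplicit false

open Set Filter Topology Metric Function
open scoped Manifold ContDiff

noncomputable section

namespace Pool.Agent.H8.CF

open Pool.Agent.Y522 (LD)
open Pool.Agent.H865_small (E Imm)
open Pool.Agent.H865_cl (CCT)

variable {n m k : ℕ} {X : Type} [TopologicalSpace X] [ChartedSpace (E n) X]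

/-- The differences of nearby points are nearly tangent. -/
theorem near_tangent {e : X → E m} {A : E n → X} (hA : LD n A 0)
    (hs : ∀ᶠ z in 𝓝 (0 : E n), ContDiffAt ℝ ∞ (fun z => e (A z)) z)
    (hi : Injective (fderiv ℝ (fun z => e (A z)) 0)) {τ : ℝ} (hτ : 0 < τ) :
    ∃ U ∈ 𝓝 (A 0), ∀ u ∈ U, ∀ y ∈ U, ∃ z : E n,
      ‖e u - e y - fderiv ℝ (fun z => e (A z)) 0 z‖ ≤ τ * ‖e u - e y‖ := by
  obtain ⟨p, hp, hp0, -, hp2⟩ := hA.exists_inverse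
  obtain ⟨L, hL⟩ : ∃ L, L = fderiv ℝ (fun z => e (A z)) 0 := ⟨_, rfl⟩
  rw [← hL] at hi ⊢
  obtain ⟨K, hK, hLK⟩ : ∃ K : ℝ, 0 < K ∧ ∀ v, ‖v‖ ≤ K * ‖L v‖ := by
    have h1 : LinearMap.ker (L : E n →ₗ[ℝ] E m) = ⊥ := LinearMap.ker_eq_bot.2 hi
    obtain ⟨K, hK, hK2⟩ := (L : E n →ₗ[ℝ] E m).exists_antilipschitzWith h1
    refine ⟨K, hK, fun v => ?_⟩
    have := hK2.le_mul_dist v 0
    rw [map_zero, dist_zero_right, dist_zero_right] at this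
    exact this
  have hst : HasStrictFDerivAt (fun z => e (A z)) L 0 := by
    rw [hL]
    exact (hs.self_of_nhds).hasStrictFDerivAt (by simp)
  obtain ⟨τ', hτ', hτ'1, hτ'2⟩ : ∃ τ' : ℝ, 0 < τ' ∧ τ' * K ≤ 1 / 2 ∧ 2 * K * τ' ≤ τ := by
    refine ⟨min (1 / (2 * K)) (τ / (2 * K)), by positivity, ?_, ?_⟩
    · calc min (1 / (2 * K)) (τ / (2 * K)) * K ≤ 1 / (2 * K) * K :=
            mul_le_mul_of_nonneg_right (min_le_left _ _) hK.le
        _ = 1 / 2 := by field_simp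
    · calc 2 * K * min (1 / (2 * K)) (τ / (2 * K)) ≤ 2 * K * (τ / (2 * K)) :=
            mul_le_mul_of_nonneg_left (min_le_right _ _) (by positivity)
        _ = τ := by field_simp
  have h2 := hst.isLittleO.def hτ'
  rw [nhds_prod_eq] at h2
  obtain ⟨V, hV, hV2⟩ := Filter.eventually_prod_self_iff'.1 h2
  have hpc : ContinuousAt p (A 0) := hp.continuousAt
  refine ⟨p ⁻¹' V ∩ {u | A (p u) = u}, inter_mem (hpc (by rw [hp0]; exact hV)) hp2, ?_⟩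
  rintro u ⟨hu, hu2⟩ y ⟨hy, hy2⟩
  refine ⟨p u - p y, ?_⟩
  have h3 := hV2 (p u) hu (p y) hy
  simp only at h3
  simp only [mem_ofPred_eq] at hu2 hy2
  rw [hu2, hy2] at h3
  have h4 : ‖L (p u - p y)‖ ≤ ‖e u - e y‖ + τ' * ‖p u - p y‖ := by
    have : L (p u - p y) = (e u - e y) - (e u - e y - L (p u - p y)) := by abel
    rw [this]
    exact (norm_sub_le _ _).trans (by linarith)
  have h5 := hLK (p u - p y)
  have h6 : ‖p u - p y‖ ≤ 2 * K * ‖e u - e y‖ := by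
    have h7 := mul_le_mul_of_nonneg_left h4 hK.le
    have h8 := mul_le_mul_of_nonneg_right hτ'1 (norm_nonneg (p u - p y))
    nlinarith
  calc ‖e u - e y - L (p u - p y)‖ ≤ τ' * ‖p u - p y‖ := h3
    _ ≤ τ' * (2 * K * ‖e u - e y‖) := mul_le_mul_of_nonneg_left h6 hτ'.le
    _ = (2 * K * τ') * ‖e u - e y‖ := by ring
    _ ≤ τ * ‖e u - e y‖ := mul_le_mul_of_nonneg_right hτ'2 (norm_nonneg _)

/-- There are points in all tangent directions. -/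
theorem tangent_points {e : X → E m} {A : E n → X} (hA : LD n A 0)
    (hs : ∀ᶠ z in 𝓝 (0 : E n), ContDiffAt ℝ ∞ (fun z => e (A z)) z)
    (hi : Injective (fderiv ℝ (fun z => e (A z)) 0)) {τ : ℝ} (hτ : 0 < τ) (hτ1 : τ < 1) {W : Set X}
    (hW : W ∈ 𝓝 (A 0)) :
    ∃ V ∈ 𝓝 (A 0), ∃ r : ℝ, 0 < r ∧ ∀ y ∈ V, ∀ s : ℝ, 0 < s → s < r → ∀ a : E n,
      ‖fderiv ℝ (fun z => e (A z)) 0 a‖ ≤ 1 → ∃ w ∈ W, ‖e w - e y‖ ≤ s ∧
        ‖e w - e y - ((1 - τ) * s) • fderiv ℝ (fun z => e (A z)) 0 a‖ ≤ τ * s := by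
  obtain ⟨p, hp, hp0, -, hp2⟩ := hA.exists_inverse
  obtain ⟨L, hL⟩ : ∃ L, L = fderiv ℝ (fun z => e (A z)) 0 := ⟨_, rfl⟩
  rw [← hL] at hi ⊢
  obtain ⟨K, hK, hLK⟩ : ∃ K : ℝ, 0 < K ∧ ∀ v, ‖v‖ ≤ K * ‖L v‖ := by
    have h1 : LinearMap.ker (L : E n →ₗ[ℝ] E m) = ⊥ := LinearMap.ker_eq_bot.2 hi
    obtain ⟨K, hK, hK2⟩ := (L : E n →ₗ[ℝ] E m).exists_antilipschitzWith h1
    refine ⟨K, hK, fun v => ?_⟩
    have := hK2.le_mul_dist v 0
    rw [map_zero, dist_zero_right, dist_zero_right] at this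
    exact this
  have hst : HasStrictFDerivAt (fun z => e (A z)) L 0 := by
    rw [hL]
    exact (hs.self_of_nhds).hasStrictFDerivAt (by simp)
  obtain ⟨τ', hτ', hτ'1⟩ : ∃ τ' : ℝ, 0 < τ' ∧ τ' * K ≤ τ := ⟨τ / K, by positivity, by rw [div_mul_cancel₀ _ hK.ne']⟩
  have h2 := hst.isLittleO.def hτ'
  rw [nhds_prod_eq] at h2
  obtain ⟨V, hV, hV2⟩ := Filter.eventually_prod_self_iff'.1 h2
  have hAc : ContinuousAt A 0 := hA.continuousAt
  have hV3 : V ∩ A ⁻¹' W ∈ 𝓝 (0 : E n) := inter_mem hV (hAc hW)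
  obtain ⟨ρ, hρ, hρV⟩ := Metric.mem_nhds_iff.1 hV3
  have hpc : ContinuousAt p (A 0) := hp.continuousAt
  refine ⟨p ⁻¹' (ball 0 (ρ / 2)) ∩ {u | A (p u) = u}, inter_mem (hpc (by rw [hp0]; exact ball_mem_nhds _ (by positivity))) hp2,
    ρ / (2 * K), by positivity, ?_⟩
  rintro y ⟨hy, hy2⟩ s hs0 hsr a ha
  rw [mem_preimage, mem_ball_zero_iff] at hy
  simp only [mem_ofPred_eq] at hy2
  have hτ0 : 0 < 1 - τ := by linarith
  obtain ⟨σ, hσ⟩ : ∃ σ, σ = (1 - τ) * s := ⟨_, rfl⟩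
  have hσ0 : 0 < σ := by rw [hσ]; positivity
  have hσs : σ ≤ s := by
    rw [hσ]
    nlinarith
  have ha2 : ‖σ • a‖ ≤ K * s := by
    rw [norm_smul, Real.norm_eq_abs, abs_of_pos hσ0]
    have := hLK a
    have h3 : ‖a‖ ≤ K := this.trans (by nlinarith)
    calc σ * ‖a‖ ≤ s * K := mul_le_mul hσs h3 (norm_nonneg _) hs0.le
      _ = K * s := mul_comm _ _
  have ha3 : K * s < ρ / 2 := by
    rw [lt_div_iff₀ (by positivity)] at hsr
    nlinarith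
  have h4 : p y + σ • a ∈ V ∩ A ⁻¹' W := by
    apply hρV
    rw [mem_ball_zero_iff]
    calc ‖p y + σ • a‖ ≤ ‖p y‖ + ‖σ • a‖ := norm_add_le _ _
      _ < ρ := by linarith
  have h5 : p y ∈ V := (hρV (by rw [mem_ball_zero_iff]; linarith)).1
  have h6 := hV2 (p y + σ • a) h4.1 (p y) h5
  simp only [add_sub_cancel_left] at h6
  rw [hy2] at h6
  have h7 : ‖e (A (p y + σ • a)) - e y - σ • L a‖ ≤ τ * s := by
    rw [← map_smul]
    refine h6.trans ?_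
    calc τ' * ‖σ • a‖ ≤ τ' * (K * s) := mul_le_mul_of_nonneg_left ha2 hτ'.le
      _ = τ' * K * s := by ring
      _ ≤ τ * s := mul_le_mul_of_nonneg_right hτ'1 hs0.le
  refine ⟨A (p y + σ • a), h4.2, ?_, by rw [← hσ]; exact h7⟩
  have h8 : e (A (p y + σ • a)) - e y = (e (A (p y + σ • a)) - e y - σ • L a) + σ • L a := by abel
  rw [h8]
  refine (norm_add_le _ _).trans ?_
  have h9 : ‖σ • L a‖ ≤ σ := by
    rw [norm_smul, Real.norm_eq_abs, abs_of_pos hσ0]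
    nlinarith
  have h10 : τ * s + σ = s := by rw [hσ]; ring
  linarith

/-- **Maps which coarsely preserve a nondegenerate multilinear form have coarse coordinates.** -/
theorem cct_of_form {q : ℕ} {e : X → E m} {F : X → E k} {S : Set ℝ} {A : E n → X} (hA : LD n A 0)
    (hs : ∀ᶠ z in 𝓝 (0 : E n), ContDiffAt ℝ ∞ (fun z => e (A z)) z)
    (hi : Injective (fderiv ℝ (fun z => e (A z)) 0))
    (B : ContinuousMultilinearMap ℝ (fun _ : Fin (q + 1) => E m) ℝ)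
    (hB : ∀ v : E n, ‖fderiv ℝ (fun z => e (A z)) 0 v‖ = 1 → ∃ a : Fin q → E n,
      (∀ i, ‖fderiv ℝ (fun z => e (A z)) 0 (a i)‖ ≤ 1) ∧
      ∀ z : E n, B (Fin.cons (fderiv ℝ (fun z => e (A z)) 0 z) (fun i => fderiv ℝ (fun z => e (A z)) 0 (a i))) =
        inner ℝ (fderiv ℝ (fun z => e (A z)) 0 v) (fderiv ℝ (fun z => e (A z)) 0 z))
    {δ η : ℝ} (hδ : 0 ≤ δ) (hδη : δ < η)
    (hF : ∀ τ : ℝ, 0 < τ → ∃ U ∈ 𝓝 (A 0), ∃ r : ℝ, 0 < r ∧ ∃ C : ℝ, ∀ y ∈ U, ∀ s ∈ S, 0 < s → s < r →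
      ∃ β : ContinuousMultilinearMap ℝ (fun _ : Fin (q + 1) => E k) ℝ, ∀ u : Fin (q + 1) → X,
        (∀ i, u i ∈ U) → (∀ i, ‖e (u i) - e y‖ ≤ s) →
          |β (fun i => F (u i) - F y) - B (fun i => e (u i) - e y)| ≤ (δ + τ) * s ^ (q + 1) ∧
            ‖β‖ * ∏ i, ‖F (u i) - F y‖ ≤ C * s ^ (q + 1)) :
    CCT e F S η (A 0) := by
  obtain ⟨L, hL⟩ : ∃ L, L = fderiv ℝ (fun z => e (A z)) 0 := ⟨_, rfl⟩
  rw [← hL] at hi hB
  obtain ⟨T, hT⟩ : ∃ T, T = LinearMap.range (L : E n →ₗ[ℝ] E m) := ⟨_, rfl⟩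
  -- the accuracies
  obtain ⟨τ, hτ⟩ : ∃ τ, τ = (η - δ) / 2 := ⟨_, rfl⟩
  have hτ0 : 0 < τ := by rw [hτ]; linarith
  obtain ⟨τ₁, hτ₁0, hτ₁1, hτ₁⟩ : ∃ τ₁ : ℝ, 0 < τ₁ ∧ τ₁ < 1 / 2 ∧
      ((1 - τ₁) ^ q)⁻¹ * (δ + τ) + ((1 - τ₁) ^ q)⁻¹ * (‖B‖ * (q + 1) * (2 ^ q * τ₁)) + τ₁ ≤ η := by
    have hc : ContinuousAt (fun t : ℝ => ((1 - t) ^ q)⁻¹ * (δ + τ) + ((1 - t) ^ q)⁻¹ * (‖B‖ * (q + 1) * (2 ^ q * t)) + t) 0 := by
      have h1 : ContinuousAt (fun t : ℝ => ((1 - t) ^ q)⁻¹) 0 := by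
        refine ContinuousAt.inv₀ (by fun_prop) ?_
        simp
      exact ((h1.mul continuousAt_const).add (h1.mul (by fun_prop))).add continuousAt_id
    have h0 : (fun t : ℝ => ((1 - t) ^ q)⁻¹ * (δ + τ) + ((1 - t) ^ q)⁻¹ * (‖B‖ * (q + 1) * (2 ^ q * t)) + t) 0 < η := by
      simp only [sub_zero, one_pow, inv_one, mul_zero, one_mul, add_zero]
      linarith
    have h2 := hc.eventually (gt_mem_nhds h0)
    have h3 := (h2.filter_mono nhdsWithin_le_nhds).and (Ioo_mem_nhdsGT (show (0 : ℝ) < 1 / 2 by norm_num))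
    obtain ⟨t, ht1, ht2⟩ := h3.exists
    exact ⟨t, ht2.1, ht2.2, ht1.le⟩
  obtain ⟨U₀, hU₀, hn⟩ := near_tangent hA hs (by rw [← hL]; exact hi) hτ₁0
  obtain ⟨U₁, hU₁, r₁, hr₁, C, hβ⟩ := hF τ hτ0
  obtain ⟨V, hV, r₂, hr₂, hp⟩ := tangent_points hA hs (by rw [← hL]; exact hi) hτ₁0 (by linarith) hU₁
  rw [← hL] at hn hp
  have hq : 0 < (1 - τ₁) ^ q := pow_pos (by linarith) q
  refine ⟨U₀ ∩ U₁ ∩ V, inter_mem (inter_mem hU₀ hU₁) hV, min r₁ r₂, lt_min hr₁ hr₂, ((1 - τ₁) ^ q)⁻¹ * |C|, ?_⟩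
  rintro y ⟨⟨hy0, hy1⟩, hyV⟩ s hsS hs0 hsr v hv
  obtain ⟨P, hP⟩ : ∃ P, P = T.starProjection v := ⟨_, rfl⟩
  have hPT : P ∈ T := by
    rw [hP]
    exact Submodule.starProjection_apply_mem _ _
  have hPin : ∀ z : E n, inner ℝ v (L z) = inner ℝ P (L z) := by
    intro z
    have h1 : inner ℝ (v - T.starProjection v) (L z) = 0 :=
      Submodule.starProjection_inner_eq_zero _ _ (by rw [hT]; exact ⟨z, rfl⟩)
    rw [inner_sub_left, ← hP] at h1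
    linarith
  have hP1 : ‖P‖ ≤ 1 := by
    have h1 : ‖P‖ * ‖P‖ ≤ ‖P‖ := by
      obtain ⟨z, hz⟩ : ∃ z, L z = P := by
        rw [hT] at hPT
        exact hPT
      have h2 := hPin z
      rw [hz, real_inner_self_eq_norm_mul_norm] at h2
      rw [← h2]
      calc inner ℝ v P ≤ ‖v‖ * ‖P‖ := real_inner_le_norm _ _
        _ = ‖P‖ := by rw [hv, one_mul]
    rcases (norm_nonneg P).eq_or_lt with h3 | h3
    · rw [← h3]; exact zero_le_one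
    · nlinarith
  have hvn : ∀ u ∈ U₀, ‖e u - e y‖ ≤ s → ∃ z : E n, ‖e u - e y - L z‖ ≤ τ₁ * s ∧
      |inner ℝ P (L z) - inner ℝ v (e u - e y)| ≤ τ₁ * s := by
    intro u hu hus
    obtain ⟨z, hz⟩ := hn u hu y hy0
    have hz' : ‖e u - e y - L z‖ ≤ τ₁ * s := hz.trans (mul_le_mul_of_nonneg_left hus hτ₁0.le)
    refine ⟨z, hz', ?_⟩
    rw [← hPin, ← inner_sub_right]
    calc |inner ℝ v (L z - (e u - e y))| ≤ ‖v‖ * ‖L z - (e u - e y)‖ := abs_real_inner_le_norm _ _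
      _ ≤ τ₁ * s := by rw [hv, one_mul, norm_sub_rev]; exact hz'
  rcases eq_or_ne P 0 with hP0 | hP0
  · refine ⟨0, 0, fun u hu hus => ⟨?_, ?_⟩⟩
    · obtain ⟨z, -, hz⟩ := hvn u hu.1.1 hus
      rw [hP0, inner_zero_left] at hz
      have h1 : τ₁ ≤ η := by
        refine le_trans ?_ hτ₁
        have : 0 ≤ ((1 - τ₁) ^ q)⁻¹ * (δ + τ) + ((1 - τ₁) ^ q)⁻¹ * (‖B‖ * (q + 1) * (2 ^ q * τ₁)) := by positivity
        linarith
      simp only [_root_.zero_apply, add_zero]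
      exact hz.trans (mul_le_mul_of_nonneg_right h1 hs0.le)
    · rw [norm_zero, zero_mul]
      positivity
  obtain ⟨l, hl⟩ : ∃ l, l = ‖P‖ := ⟨_, rfl⟩
  have hl0 : 0 < l := by rw [hl]; exact norm_pos_iff.2 hP0
  rw [← hl] at hP1
  obtain ⟨v₀, hv₀⟩ : ∃ z, L z = P := by
    rw [hT] at hPT
    exact hPT
  have hLv : L (l⁻¹ • v₀) = l⁻¹ • P := by rw [map_smul, hv₀]
  obtain ⟨a, ha, haB⟩ := hB (l⁻¹ • v₀) (by
    rw [hLv, norm_smul, norm_inv, Real.norm_eq_abs, abs_of_pos hl0, ← hl, inv_mul_cancel₀ hl0.ne'])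
  have hw : ∀ i : Fin q, ∃ w ∈ U₁, ‖e w - e y‖ ≤ s ∧ ‖e w - e y - ((1 - τ₁) * s) • L (a i)‖ ≤ τ₁ * s := fun i =>
    hp y hyV s hs0 (hsr.trans_le (min_le_right _ _)) (a i) (ha i)
  choose w hw1 hw2 hw3 using hw
  obtain ⟨β, hβ⟩ := hβ y hy1 s hsS hs0 (hsr.trans_le (min_le_left _ _))
  obtain ⟨κ, hκ⟩ : ∃ κ, κ = l * (((1 - τ₁) * s) ^ q)⁻¹ := ⟨_, rfl⟩
  have hκ0 : 0 < κ := by
    rw [hκ]
    have : 0 < 1 - τ₁ := by linarith
    positivity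
  obtain ⟨M, hM⟩ : ∃ M : Fin q → E k, M = fun i => F (w i) - F y := ⟨_, rfl⟩
  obtain ⟨ℓ₀, hℓ₀⟩ : ∃ ℓ₀ : E k →L[ℝ] ℝ, ∀ p, ℓ₀ p = β (Fin.cons p M) :=
    ⟨(ContinuousMultilinearMap.apply ℝ (fun _ : Fin q => E k) ℝ M).comp β.curryLeft, fun p => rfl⟩
  have hℓn : ‖ℓ₀‖ ≤ ‖β‖ * ∏ i, ‖M i‖ := by
    refine ContinuousLinearMap.opNorm_le_bound _ (by positivity) fun p => ?_
    rw [hℓ₀]
    refine (β.le_opNorm _).trans (le_of_eq ?_)
    rw [Fin.prod_univ_succ]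
    simp only [Fin.cons_zero, Fin.cons_succ]
    ring
  have hcons : ∀ u : X, (fun i => F ((Fin.cons u w : Fin (q + 1) → X) i) - F y) = Fin.cons (F u - F y) M := by
    intro u
    funext i
    refine Fin.cases ?_ (fun i => ?_) i
    · simp
    · simp [hM]
  have hκs : κ * s ^ (q + 1) = l * ((1 - τ₁) ^ q)⁻¹ * s := by
    have g1 : (1 - τ₁) ^ q ≠ 0 := hq.ne'
    have g2 : s ^ q ≠ 0 := (pow_pos hs0 q).ne'
    rw [hκ, mul_pow, pow_succ]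
    generalize (1 - τ₁) ^ q = c at g1 ⊢
    field_simp
  refine ⟨κ • ℓ₀, -(κ * ℓ₀ (F y)), fun u hu hus => ?_⟩
  have hU : ∀ i, (Fin.cons u w : Fin (q + 1) → X) i ∈ U₁ := fun i => by
    refine Fin.cases ?_ (fun i => ?_) i
    · simpa using hu.1.2
    · simpa using hw1 i
  have hUs : ∀ i, ‖e ((Fin.cons u w : Fin (q + 1) → X) i) - e y‖ ≤ s := fun i => by
    refine Fin.cases ?_ (fun i => ?_) i
    · simpa using hus
    · simpa using hw2 i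
  obtain ⟨h1, h2⟩ := hβ (Fin.cons u w) hU hUs
  rw [hcons u] at h1
  constructor
  · obtain ⟨z, hz, hz2⟩ := hvn u hu.1.1 hus
    have h3 := haB z
    rw [hLv, inner_smul_left] at h3
    simp only [map_inv₀, conj_trivial] at h3
    have h4 : (κ • ℓ₀) (F u) + -(κ * ℓ₀ (F y)) = κ * β (Fin.cons (F u - F y) M) := by
      rw [← hℓ₀, map_sub]
      show κ * ℓ₀ (F u) + -(κ * ℓ₀ (F y)) = _
      ring
    obtain ⟨b, hb⟩ : ∃ b, b = B (fun i => e ((Fin.cons u w : Fin (q + 1) → X) i) - e y) := ⟨_, rfl⟩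
    obtain ⟨b', hb'⟩ : ∃ b', b' = B (Fin.cons (L z) (fun i => ((1 - τ₁) * s) • L (a i))) := ⟨_, rfl⟩
    rw [← hb] at h1
    have hb1 : b' = ((1 - τ₁) * s) ^ q * (l⁻¹ * inner ℝ P (L z)) := by
      have g1 := (B.curryLeft (L z)).map_smul_univ (fun _ => (1 - τ₁) * s) (fun i => L (a i))
      rw [ContinuousMultilinearMap.curryLeft_apply, ContinuousMultilinearMap.curryLeft_apply, h3] at g1
      rw [hb', g1]
      simp
    have hb2 : |b - b'| ≤ ‖B‖ * (q + 1) * (2 * s) ^ q * (τ₁ * s) := by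
      rw [hb, hb']
      refine (B.norm_image_sub_le _ _).trans ?_
      rw [Fintype.card_fin, Nat.add_sub_cancel]
      push_cast
      have g1 : ‖(fun i => e ((Fin.cons u w : Fin (q + 1) → X) i) - e y)‖ ≤ s :=
        (pi_norm_le_iff_of_nonneg hs0.le).2 hUs
      have g3 : ‖(fun i => e ((Fin.cons u w : Fin (q + 1) → X) i) - e y) -
          (Fin.cons (L z) (fun i => ((1 - τ₁) * s) • L (a i)) : Fin (q + 1) → E m)‖ ≤ τ₁ * s := by
        refine (pi_norm_le_iff_of_nonneg (by positivity)).2 fun i => ?_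
        refine Fin.cases ?_ (fun i => ?_) i
        · simpa using hz
        · simpa using hw3 i
      have g2 : ‖(Fin.cons (L z) (fun i => ((1 - τ₁) * s) • L (a i)) : Fin (q + 1) → E m)‖ ≤ 2 * s := by
        have g4 := norm_sub_norm_le (Fin.cons (L z) (fun i => ((1 - τ₁) * s) • L (a i)) : Fin (q + 1) → E m)
          (fun i => e ((Fin.cons u w : Fin (q + 1) → X) i) - e y)
        rw [norm_sub_rev] at g4
        nlinarith
      refine mul_le_mul ?_ g3 (norm_nonneg _) (by positivity)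
      refine mul_le_mul_of_nonneg_left (pow_le_pow_left₀ (by positivity) (max_le (by linarith) g2) q) (by positivity)
    have hρ : ((1 - τ₁) * s) ^ q ≠ 0 := (pow_pos (mul_pos (by linarith) hs0) q).ne'
    have hκb : κ * b' = inner ℝ P (L z) := by
      rw [hb1, hκ]
      generalize ((1 - τ₁) * s) ^ q = c at hρ ⊢
      field_simp
    have e1 : (κ • ℓ₀) (F u) + -(κ * ℓ₀ (F y)) - inner ℝ v (e u - e y) =
        κ * (β (Fin.cons (F u - F y) M) - b) + κ * (b - b') + (inner ℝ P (L z) - inner ℝ v (e u - e y)) := by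
      rw [h4, ← hκb]
      ring
    rw [e1]
    have f1 : |κ * (β (Fin.cons (F u - F y) M) - b)| ≤ ((1 - τ₁) ^ q)⁻¹ * (δ + τ) * s := by
      rw [abs_mul, abs_of_pos hκ0]
      calc κ * |β (Fin.cons (F u - F y) M) - b| ≤ κ * ((δ + τ) * s ^ (q + 1)) := mul_le_mul_of_nonneg_left h1 hκ0.le
        _ = (κ * s ^ (q + 1)) * (δ + τ) := by ring
        _ = l * (((1 - τ₁) ^ q)⁻¹ * (δ + τ) * s) := by rw [hκs]; ring
        _ ≤ 1 * (((1 - τ₁) ^ q)⁻¹ * (δ + τ) * s) := mul_le_mul_of_nonneg_right hP1 (by positivity)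
        _ = _ := one_mul _
    have f2 : |κ * (b - b')| ≤ ((1 - τ₁) ^ q)⁻¹ * (‖B‖ * (q + 1) * (2 ^ q * τ₁)) * s := by
      rw [abs_mul, abs_of_pos hκ0]
      calc κ * |b - b'| ≤ κ * (‖B‖ * (q + 1) * (2 * s) ^ q * (τ₁ * s)) := mul_le_mul_of_nonneg_left hb2 hκ0.le
        _ = (κ * s ^ (q + 1)) * (‖B‖ * (q + 1) * (2 ^ q * τ₁)) := by rw [mul_pow]; ring
        _ = l * (((1 - τ₁) ^ q)⁻¹ * (‖B‖ * (q + 1) * (2 ^ q * τ₁)) * s) := by rw [hκs]; ring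
        _ ≤ 1 * (((1 - τ₁) ^ q)⁻¹ * (‖B‖ * (q + 1) * (2 ^ q * τ₁)) * s) := mul_le_mul_of_nonneg_right hP1 (by positivity)
        _ = _ := one_mul _
    calc |κ * (β (Fin.cons (F u - F y) M) - b) + κ * (b - b') + (inner ℝ P (L z) - inner ℝ v (e u - e y))| ≤
          |κ * (β (Fin.cons (F u - F y) M) - b)| + |κ * (b - b')| + |inner ℝ P (L z) - inner ℝ v (e u - e y)| :=
          abs_add_three _ _ _
      _ ≤ ((1 - τ₁) ^ q)⁻¹ * (δ + τ) * s + ((1 - τ₁) ^ q)⁻¹ * (‖B‖ * (q + 1) * (2 ^ q * τ₁)) * s + τ₁ * s := by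
          linarith
      _ = (((1 - τ₁) ^ q)⁻¹ * (δ + τ) + ((1 - τ₁) ^ q)⁻¹ * (‖B‖ * (q + 1) * (2 ^ q * τ₁)) + τ₁) * s := by ring
      _ ≤ η * s := mul_le_mul_of_nonneg_right hτ₁ hs0.le
  · rw [norm_smul, Real.norm_eq_abs, abs_of_pos hκ0]
    rw [Fin.prod_univ_succ] at h2
    simp only [Fin.cons_zero, Fin.cons_succ] at h2
    have h3 : ∏ i, ‖M i‖ = ∏ i, ‖F (w i) - F y‖ := by rw [hM]
    calc κ * ‖ℓ₀‖ * ‖F u - F y‖ ≤ κ * (‖β‖ * ∏ i, ‖M i‖) * ‖F u - F y‖ :=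
          mul_le_mul_of_nonneg_right (mul_le_mul_of_nonneg_left hℓn hκ0.le) (norm_nonneg _)
      _ = κ * (‖β‖ * (‖F u - F y‖ * ∏ i, ‖F (w i) - F y‖)) := by rw [h3]; ring
      _ ≤ κ * (C * s ^ (q + 1)) := mul_le_mul_of_nonneg_left h2 hκ0.le
      _ ≤ κ * (|C| * s ^ (q + 1)) :=
          mul_le_mul_of_nonneg_left (mul_le_mul_of_nonneg_right (le_abs_self C) (by positivity)) hκ0.le
      _ = (κ * s ^ (q + 1)) * |C| := by ring
      _ = l * (((1 - τ₁) ^ q)⁻¹ * |C| * s) := by rw [hκs]; ring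
      _ ≤ 1 * (((1 - τ₁) ^ q)⁻¹ * |C| * s) := mul_le_mul_of_nonneg_right hP1 (by positivity)
      _ = _ := one_mul _

end Pool.Agent.H8.CF
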