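import Pool.Agent.H8.CF.Bilin

/-!
# Nondegenerate quadratic forms: polarization
-/

set_option autoImplicit false

open Set Filter Topology Metric Function
open scoped Manifold ContDiff

noncomputable section

namespace Pool.Agent.H8.CF

open Pool.Agent.Y522 (LD)
open Pool.Agent.H865_small (E Imm imm_smooth)
open Pool.Agent.H865_cl (CCT)

variable {n m k : ℕ} {X : Type} [TopologicalSpace X] [ChartedSpace (E n) X]

/-- coarse preservation of a quadratic form -/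
def PresQ (e : X → E m) (B : X → E m →L[ℝ] E m →L[ℝ] ℝ) (F : X → E k) (S : Set ℝ) (ε : ℝ) (x : X) : Prop :=
  ∃ U ∈ 𝓝 x, ∃ r : ℝ, 0 < r ∧ ∃ C : ℝ, ∀ y ∈ U, ∀ s ∈ S, 0 < s → s < r → ∃ β : E k →L[ℝ] E k →L[ℝ] ℝ,
    ∀ u ∈ U, ∀ w ∈ U, ‖e u - e y‖ ≤ s → ‖e w - e y‖ ≤ s →
      |β (F u - F w) (F u - F w) - B y (e u - e w) (e u - e w)| ≤ ε * s ^ 2 ∧
        ‖β‖ * (‖F u - F y‖ * ‖F w - F y‖) ≤ C * s ^ 2

omit [ChartedSpace (E n) X] in
theorem pres_of_presQ {e : X → E m} {B : X → E m →L[ℝ] E m →L[ℝ] ℝ} (hsym : ∀ x p q, B x p q = B x q p)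
    {F : X → E k} {S : Set ℝ} {ε : ℝ} {x : X} (h : PresQ e B F S ε x) : Pres e B F S (3 / 2 * ε) x := by
  obtain ⟨U, hU, r, hr, C, hP⟩ := h
  refine ⟨U, hU, r, hr, C, fun y hy s hs hs0 hsr => ?_⟩
  obtain ⟨b, hb⟩ := hP y hy s hs hs0 hsr
  refine ⟨(1 / 2 : ℝ) • (b + b.flip), fun u hu w hw hus hws => ?_⟩
  have hys : ‖e y - e y‖ ≤ s := by rw [sub_self, norm_zero]; exact hs0.le
  obtain ⟨p, hp⟩ : ∃ p, p = F u - F y := ⟨_, rfl⟩
  obtain ⟨q, hq⟩ : ∃ q, q = F w - F y := ⟨_, rfl⟩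
  obtain ⟨p', hp'⟩ : ∃ p', p' = e u - e y := ⟨_, rfl⟩
  obtain ⟨q', hq'⟩ : ∃ q', q' = e w - e y := ⟨_, rfl⟩
  have h1 := (hb u hu w hw hus hws).1
  have h2 := (hb u hu y hy hus hys).1
  have h3 := (hb w hw y hy hws hys).1
  have h4 := (hb u hu w hw hus hws).2
  have e1 : F u - F w = p - q := by rw [hp, hq]; abel
  have e2 : e u - e w = p' - q' := by rw [hp', hq']; abel
  rw [e1, e2] at h1
  rw [← hp, ← hp'] at h2
  rw [← hq, ← hq'] at h3
  rw [← hp, ← hq] at h4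
  rw [← hp, ← hp', ← hq, ← hq']
  constructor
  · have e3 : ((1 / 2 : ℝ) • (b + b.flip)) p q = 1 / 2 * (b p p + b q q - b (p - q) (p - q)) := by
      have g1 : ((1 / 2 : ℝ) • (b + b.flip)) p q = 1 / 2 * (b p q + b q p) := rfl
      rw [g1]
      simp only [map_sub, _root_.sub_apply]
      ring
    have e4 : B y p' q' = 1 / 2 * (B y p' p' + B y q' q' - B y (p' - q') (p' - q')) := by
      simp only [map_sub, _root_.sub_apply]
      rw [hsym y q' p']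
      ring
    rw [e3, e4]
    rw [abs_le] at h1 h2 h3 ⊢
    constructor
    · linarith [h1.1, h1.2, h2.1, h2.2, h3.1, h3.2]
    · linarith [h1.1, h1.2, h2.1, h2.2, h3.1, h3.2]
  · have h5 : ‖(1 / 2 : ℝ) • (b + b.flip)‖ ≤ ‖b‖ := by
      refine ContinuousLinearMap.opNorm_le_bound₂ _ (norm_nonneg b) fun a c => ?_
      have g1 : ((1 / 2 : ℝ) • (b + b.flip)) a c = 1 / 2 * (b a c + b c a) := rfl
      rw [g1, Real.norm_eq_abs]
      have g2 := b.le_opNorm₂ a c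
      have g3 := b.le_opNorm₂ c a
      rw [Real.norm_eq_abs, abs_le] at g2 g3
      rw [abs_le]
      have g4 : ‖b‖ * ‖c‖ * ‖a‖ = ‖b‖ * ‖a‖ * ‖c‖ := by ring
      constructor
      · linarith [g2.1, g2.2, g3.1, g3.2]
      · linarith [g2.1, g2.2, g3.1, g3.2]
    exact (mul_le_mul_of_nonneg_right h5 (by positivity)).trans h4

end Pool.Agent.H8.CF
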