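import Pool.Agent.H8.CF.Bilin

/-!
# Volume forms
-/

set_option autoImplicit false

open Set Filter Topology Metric Function
open scoped Manifold ContDiff

noncomputable section

namespace Pool.Agent.H8.CF

open Pool.Agent.Y522 (LD)
open Pool.Agent.H865_small (E Imm imm_smooth)
open Pool.Agent.H865_cl (CCT)

/-- the volume form is dual to the inner product -/
theorem vol_dual {V : Type*} [NormedAddCommGroup V] [InnerProductSpace ℝ V] {q : ℕ}
    (hd : Module.finrank ℝ V = q + 2) (B : V [⋀^Fin (q + 2)]→L[ℝ] ℝ)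
    (hB : ∀ b : Fin (q + 2) → V, Orthonormal ℝ b → |B b| = 1) (v : V) (hv : ‖v‖ = 1) :
    ∃ a : Fin (q + 1) → V, (∀ i, ‖a i‖ ≤ 1) ∧ ∀ z : V, B (Fin.cons z a) = inner ℝ v z := by
  have hfin : FiniteDimensional ℝ V := FiniteDimensional.of_finrank_pos (by rw [hd]; omega)
  have hv1 : Orthonormal ℝ (({0} : Set (Fin (q + 2))).domRestrict fun _ => v) := by
    refine ⟨fun _ => hv, fun i j hij => ?_⟩
    exact absurd (Subsingleton.elim i j) hij
  obtain ⟨b, hb⟩ := hv1.exists_orthonormalBasis_extension_of_card_eq (by rw [hd, Fintype.card_fin])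
  have hb0 : b 0 = v := hb 0 rfl
  obtain ⟨c, hc⟩ : ∃ c, c = B b := ⟨_, rfl⟩
  have hc1 : |c| = 1 := by rw [hc]; exact hB b b.orthonormal
  have hcc : c * c = 1 := by rw [← abs_mul_abs_self, hc1, one_mul]
  obtain ⟨a, ha⟩ : ∃ a : Fin (q + 1) → V, a = fun i => b i.succ := ⟨_, rfl⟩
  have key : ∀ z : V, B (Fin.cons z a) = c * inner ℝ v z := by
    intro z
    obtain ⟨φ, hφ⟩ : ∃ φ : V →ₗ[ℝ] ℝ, ∀ z, φ z = B (Fin.cons z a) :=
      ⟨((ContinuousMultilinearMap.apply ℝ (fun _ : Fin (q + 1) => V) ℝ a).comp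
        B.toContinuousMultilinearMap.curryLeft).toLinearMap, fun z => rfl⟩
    obtain ⟨ψ, hψ⟩ : ∃ ψ : V →ₗ[ℝ] ℝ, ∀ z, ψ z = c * inner ℝ v z :=
      ⟨(c • innerSL ℝ v).toLinearMap, fun z => rfl⟩
    have h1 : φ = ψ := by
      refine b.toBasis.ext fun i => ?_
      rw [hφ, hψ, OrthonormalBasis.coe_toBasis]
      refine Fin.cases ?_ (fun i => ?_) i
      · have h2 : (Fin.cons (b 0) a : Fin (q + 2) → V) = b := by
          rw [ha]
          funext i
          refine Fin.cases ?_ (fun i => ?_) i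
          · simp
          · simp
        rw [h2, ← hc, hb0, real_inner_self_eq_norm_mul_norm, hv]
        ring
      · have h2 : B (Fin.cons (b i.succ) a) = 0 := by
          refine B.map_eq_zero_of_eq _ (i := 0) (j := i.succ) ?_ (Fin.succ_ne_zero i).symm
          rw [ha]
          simp
        have h3 : inner ℝ v (b i.succ) = 0 := by
          rw [← hb0]
          exact b.orthonormal.2 (Fin.succ_ne_zero i).symm
        rw [h2, h3, mul_zero]
    rw [← hφ, h1, hψ]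
  refine ⟨Function.update a 0 (c • a 0), fun i => ?_, fun z => ?_⟩
  · by_cases hi : i = 0
    · rw [hi, Function.update_self, norm_smul, Real.norm_eq_abs, hc1, one_mul, ha]
      exact (b.orthonormal.1 _).le
    · rw [Function.update_of_ne hi, ha]
      exact (b.orthonormal.1 _).le
  · have h1 := (B.toContinuousMultilinearMap.curryLeft z).map_update_smul a 0 c (a 0)
    rw [Function.update_eq_self] at h1
    have h2 : B (Fin.cons z (Function.update a 0 (c • a 0))) = c * B (Fin.cons z a) := h1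
    rw [h2, key, ← mul_assoc, hcc, one_mul]

variable {m k : ℕ} {X : Type} [TopologicalSpace X] [ChartedSpace (E 4) X]

/-- `B` restricts to the volume form (up to the sign) of the tangent space at `x` -/
def IsVol (e : X → E m) (B : E m [⋀^Fin 4]→L[ℝ] ℝ) (x : X) : Prop :=
  ∀ b : Fin 4 → E m, (∀ i, b i ∈ Tan (n := 4) e x) → Orthonormal ℝ b → |B b| = 1

/-- coarse preservation of oriented volumes -/
def PresV (e : X → E m) (B : E m [⋀^Fin 4]→L[ℝ] ℝ) (F : X → E k) (S : Set ℝ) (δ : ℝ) (x : X) : Prop :=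
  ∃ U ∈ 𝓝 x, ∃ r : ℝ, 0 < r ∧ ∃ C : ℝ, ∀ y ∈ U, ∀ s ∈ S, 0 < s → s < r →
    ∃ β : ContinuousMultilinearMap ℝ (fun _ : Fin 4 => E k) ℝ,
    ∀ u : Fin 4 → X, (∀ i, u i ∈ U) → (∀ i, ‖e (u i) - e y‖ ≤ s) →
      |β (fun i => F (u i) - F y) - B (fun i => e (u i) - e y)| ≤ δ * s ^ 4 ∧
        ‖β‖ * ∏ i, ‖F (u i) - F y‖ ≤ C * s ^ 4

theorem cct_of_vol {e : X → E m} {F : X → E k} {S : Set ℝ} {x : X} (hI : Imm (n := 4) e x)
    {B : E m [⋀^Fin 4]→L[ℝ] ℝ} {δ η : ℝ} (hB : IsVol e B x) (hδ : 0 ≤ δ) (hδη : δ < η) (h : PresV e B F S δ x) :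
    CCT e F S η x := by
  obtain ⟨A, hA0, hA, hs, hi⟩ := hI
  subst hA0
  obtain ⟨L, hL⟩ : ∃ L, L = fderiv ℝ (fun z => e (A z)) 0 := ⟨_, rfl⟩
  obtain ⟨T, hT⟩ : ∃ T, T = LinearMap.range (L : E 4 →ₗ[ℝ] E m) := ⟨_, rfl⟩
  have hTan : ∀ p, p ∈ Tan (n := 4) e (A 0) ↔ p ∈ T := by
    intro p
    rw [tan_eq hA hs, ← hL, hT]
    rfl
  have hmemT : ∀ p, p ∈ T → ∃ a, L a = p := fun p hp => by
    rw [hT] at hp
    exact hp
  have hLT : ∀ a, L a ∈ T := fun a => by rw [hT]; exact ⟨a, rfl⟩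
  have hdim : Module.finrank ℝ T = 2 + 2 := by
    rw [hT, LinearMap.finrank_range_of_inj (by rw [hL]; exact hi)]
    simp
  have hsolve := vol_dual hdim (B.compContinuousLinearMap T.subtypeL) (fun b hb =>
    hB (fun i => b i) (fun i => (hTan _).2 (b i).2) (hb.comp_linearIsometry T.subtypeₗᵢ))
  refine cct_of_form (q := 3) (δ := δ) hA hs hi B.toContinuousMultilinearMap ?_ hδ hδη ?_
  · intro v hv
    rw [← hL] at hv ⊢
    obtain ⟨a, ha, hav⟩ := hsolve ⟨L v, hLT v⟩ hv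
    choose a₀ ha₀ using fun i => hmemT (a i) (a i).2
    refine ⟨a₀, fun i => by rw [ha₀]; exact ha i, fun z => ?_⟩
    have h1 := hav ⟨L z, hLT z⟩
    have h2 : (Fin.cons (L z) (fun i => L (a₀ i)) : Fin (3 + 1) → E m) =
        fun i => (((Fin.cons ⟨L z, hLT z⟩ a : Fin (3 + 1) → T) i : T) : E m) := by
      funext i
      refine Fin.cases ?_ (fun i => ?_) i
      · simp
      · simp [ha₀]
    rw [h2]
    exact h1
  · intro τ hτ
    obtain ⟨U, hU, r, hr, C, hP⟩ := h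
    refine ⟨U, hU, r, hr, C, fun y hy s hsS hs0 hsr => ?_⟩
    obtain ⟨β, hβ⟩ := hP y hy s hsS hs0 hsr
    refine ⟨β, fun u hu hus => ?_⟩
    obtain ⟨h1, h2⟩ := hβ u hu hus
    refine ⟨h1.trans ?_, h2⟩
    exact mul_le_mul_of_nonneg_right (by linarith) (by positivity)

end Pool.Agent.H8.CF
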